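import Mathlib

set_option autoImplicit false

namespace Pool.Agent.V8H75.TX

open Set Filter Topology
open scoped Pointwise

/-- Compact symmetric subsets of the locally compact subgroup in a given neighbourhood of `1`. -/
theorem small {G : Type} [TopologicalSpace G] [Group G] [IsTopologicalGroup G] [T2Space G]
    (N : Subgroup G) (hN : LocallyCompactSpace N) (O : Set G) (hO : O ∈ 𝓝 (1 : G)) :
    ∃ S A : Set G, IsCompact S ∧ S ⊆ N ∧ S ⊆ O ∧ (∀ s ∈ S, s⁻¹ ∈ S) ∧ IsOpen A ∧ (1 : G) ∈ A ∧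
      A ∩ N ⊆ S := by
  obtain ⟨K0, hK0, hK01⟩ := exists_compact_mem_nhds (1 : N)
  obtain ⟨A0, hA0, hA0K⟩ := mem_nhds_subtype _ _ _ |>.1 hK01
  obtain ⟨F, hF, hFc, hFO⟩ := exists_mem_nhds_isClosed_subset hO
  have hA0' : A0 ∈ 𝓝 (1 : G) := hA0
  set K : Set G := Subtype.val '' K0 with hK
  have hKc : IsCompact K := hK0.image continuous_subtype_val
  have hKN : K ⊆ N := by
    rintro _ ⟨x, _, rfl⟩
    exact x.2
  have hAK : A0 ∩ N ⊆ K := by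
    rintro x ⟨hx, hxN⟩
    exact ⟨⟨x, hxN⟩, hA0K hx, rfl⟩
  have hKF : IsCompact (K ∩ F) := hKc.inter_right hFc
  have hinv : ∀ {s : Set G}, s ∈ 𝓝 (1 : G) → s⁻¹ ∈ 𝓝 (1 : G) := by
    intro s hs
    have := (continuous_inv (G := G)).continuousAt.preimage_mem_nhds (x := (1 : G)) (t := s)
      (by simpa using hs)
    simpa using this
  refine ⟨(K ∩ F) ∩ (K ∩ F)⁻¹, interior ((A0 ∩ F) ∩ (A0 ∩ F)⁻¹), ?_, ?_, ?_, ?_,
    isOpen_interior, ?_, ?_⟩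
  · exact hKF.inter_right hKF.inv.isClosed
  · rintro x ⟨⟨hx, -⟩, -⟩
    exact hKN hx
  · rintro x ⟨⟨-, hx⟩, -⟩
    exact hFO hx
  · rintro x ⟨h1, h2⟩
    refine ⟨h2, ?_⟩
    rw [Set.mem_inv, inv_inv]
    exact h1
  · rw [mem_interior_iff_mem_nhds]
    exact inter_mem (inter_mem hA0' hF) (hinv (inter_mem hA0' hF))
  · rintro x ⟨hx, hxN⟩
    have hx' := interior_subset hx
    refine ⟨⟨hAK ⟨hx'.1.1, hxN⟩, hx'.1.2⟩, ?_⟩
    have h2 := hx'.2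
    rw [Set.mem_inv] at h2 ⊢
    exact ⟨hAK ⟨h2.1, N.inv_mem hxN⟩, h2.2⟩

theorem exists_nbhds {G W : Type} [TopologicalSpace G] [Group G] [IsTopologicalGroup G]
    [T2Space G] [TopologicalSpace W] [Group W] [NonarchimedeanGroup W] [T2Space W] (q : G →* W)
    (hq : Continuous q) (hqo : IsOpenMap q) (hN : LocallyCompactSpace q.ker) :
    ∃ U C C' U₀ : Set G, IsCompact U ∧ IsCompact C ∧ IsCompact C' ∧ U ⊆ q.ker ∧ C ⊆ q.ker ∧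
      C' ⊆ q.ker ∧ IsOpen U₀ ∧ (1 : G) ∈ U₀ ∧ U₀ ∩ q.ker ⊆ U ∧ (∀ u ∈ U, u⁻¹ ∈ U) ∧
      (∀ c ∈ C, c⁻¹ ∈ C) ∧ (∀ u₁ ∈ U, ∀ u₂ ∈ U, ∀ u₃ ∈ U, u₁ * u₂ * u₃ ∈ C) ∧
      ∀ O ∈ 𝓝 (1 : G), ∃ (P : Set G) (V : Subgroup W), IsOpen P ∧ (1 : G) ∈ P ∧ P ⊆ O ∧
        (∀ p ∈ P, p⁻¹ ∈ P) ∧ IsOpen (V : Set W) ∧ q '' P = V ∧
        (∀ u₁ ∈ U, ∀ u₂ ∈ U, ∀ u₃ ∈ U, ∀ p ∈ P, ∀ s ∈ q.ker, ∀ s' ∈ q.ker,
          (∃ p₁ ∈ P, ∃ p₂ ∈ P, ∃ p₃ ∈ P, s = p₁ * p₂ * p₃) →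
          (∃ p₁ ∈ P, ∃ p₂ ∈ P, ∃ p₃ ∈ P, s' = p₁ * p₂ * p₃) →
          u₁ * s * (p * u₂ * p⁻¹) * s' * u₃ ∈ C) ∧
        (∀ p ∈ P, ∀ m ∈ C, p⁻¹ * m * p ∈ C') ∧
        ∀ p ∈ P, ∀ u ∈ U₀ ∩ q.ker, p * u * p⁻¹ ∈ U := by
  have hinv : ∀ {s : Set G}, s ∈ 𝓝 (1 : G) → s⁻¹ ∈ 𝓝 (1 : G) := by
    intro s hs
    have := (continuous_inv (G := G)).continuousAt.preimage_mem_nhds (x := (1 : G)) (t := s)
      (by simpa using hs)
    simpa using this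
  have h3 : ∀ {O : Set G}, O ∈ 𝓝 (1 : G) → ∃ O' ∈ 𝓝 (1 : G),
      ∀ a ∈ O', ∀ b ∈ O', ∀ c ∈ O', a * b * c ∈ O := by
    intro O hO
    have hc : ContinuousAt (fun z : G × G × G => z.1 * z.2.1 * z.2.2) (1, 1, 1) := by fun_prop
    have := hc.preimage_mem_nhds (t := O) (by simpa using hO)
    rw [nhds_prod_eq, nhds_prod_eq, mem_prod_iff] at this
    obtain ⟨t1, ht1, t2, ht2, h⟩ := this
    rw [mem_prod_iff] at ht2
    obtain ⟨t3, ht3, t4, ht4, h'⟩ := ht2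
    refine ⟨t1 ∩ (t3 ∩ t4), inter_mem ht1 (inter_mem ht3 ht4), fun a ha b hb c hc => ?_⟩
    exact h (Set.mk_mem_prod ha.1 (h' (Set.mk_mem_prod hb.2.1 hc.2.2)))
  obtain ⟨C', A, hC'c, hC'N, -, -, hAo, hA1, hAC'⟩ := small q.ker hN univ univ_mem
  obtain ⟨C, AC, hCc, hCN, hCA, hCs, hACo, hAC1, hACC⟩ := small q.ker hN A (hAo.mem_nhds hA1)
  obtain ⟨O3, hO3, hO3'⟩ := h3 (hACo.mem_nhds hAC1)
  obtain ⟨U, AU, hUc, hUN, hUO, hUs, hAUo, hAU1, hAUU⟩ := small q.ker hN O3 hO3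
  obtain ⟨S0, U₀, hS0c, hS0N, hS0A, hS0s, hU0o, hU01, hU0S⟩ :=
    small q.ker hN AU (hAUo.mem_nhds hAU1)
  refine ⟨U, C, C', U₀, hUc, hCc, hC'c, hUN, hCN, hC'N, hU0o, hU01, ?_, hUs, hCs, ?_, ?_⟩
  · intro x hx
    exact hAUU ⟨hS0A (hU0S hx), hx.2⟩
  · intro u₁ h1 u₂ h2 u₃ h3
    exact hACC ⟨hO3' _ (hUO h1) _ (hUO h2) _ (hUO h3),
      q.ker.mul_mem (q.ker.mul_mem (hUN h1) (hUN h2)) (hUN h3)⟩
  · intro O hO
    -- property (a)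
    have ha : ∀ᶠ z : G × G × G in 𝓝 ((1, 1, 1) : G × G × G), ∀ y ∈ U ×ˢ (U ×ˢ U),
        y.1 * z.1 * (z.2.1 * y.2.1 * z.2.1⁻¹) * z.2.2 * y.2.2 ∈ AC := by
      refine (hUc.prod (hUc.prod hUc)).eventually_forall_of_forall_eventually ?_
      rintro ⟨u₁, u₂, u₃⟩ ⟨h1, h2, h3'⟩
      have hc : ContinuousAt (fun w : (G × G × G) × (G × G × G) =>
          w.2.1 * w.1.1 * (w.1.2.1 * w.2.2.1 * w.1.2.1⁻¹) * w.1.2.2 * w.2.2.2)
          ((1, 1, 1), (u₁, u₂, u₃)) := by fun_prop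
      refine hc.eventually_mem (hACo.mem_nhds ?_)
      simpa using hO3' _ (hUO h1) _ (hUO h2) _ (hUO h3')
    have hb : ∀ᶠ p in 𝓝 (1 : G), ∀ m ∈ C, p⁻¹ * m * p ∈ A := by
      refine hCc.eventually_forall_of_forall_eventually ?_
      intro m hm
      have hc : ContinuousAt (fun w : G × G => w.1⁻¹ * w.2 * w.1) (1, m) := by fun_prop
      refine hc.eventually_mem (hAo.mem_nhds ?_)
      simpa using hCA hm
    have hc : ∀ᶠ p in 𝓝 (1 : G), ∀ u ∈ S0, p * u * p⁻¹ ∈ AU := by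
      refine hS0c.eventually_forall_of_forall_eventually ?_
      intro u hu
      have hc : ContinuousAt (fun w : G × G => w.1 * w.2 * w.1⁻¹) (1, u) := by fun_prop
      refine hc.eventually_mem (hAUo.mem_nhds ?_)
      simpa using hS0A hu
    rw [nhds_prod_eq, nhds_prod_eq] at ha
    have ha' := mem_prod_iff.1 ha
    obtain ⟨t1, ht1, t2, ht2, h⟩ := ha'
    rw [mem_prod_iff] at ht2
    obtain ⟨t3, ht3, t4, ht4, h'⟩ := ht2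
    obtain ⟨R, hR, hR'⟩ := h3 (inter_mem ht1 ht4)
    have hD : (O ∩ (R ∩ (t3 ∩ ({p | ∀ m ∈ C, p⁻¹ * m * p ∈ A} ∩
        {p | ∀ u ∈ S0, p * u * p⁻¹ ∈ AU})))) ∈ 𝓝 (1 : G) :=
      inter_mem hO (inter_mem hR (inter_mem ht3 (inter_mem hb hc)))
    set D := (O ∩ (R ∩ (t3 ∩ ({p | ∀ m ∈ C, p⁻¹ * m * p ∈ A} ∩
        {p | ∀ u ∈ S0, p * u * p⁻¹ ∈ AU})))) with hDdef
    set O' : Set G := interior (D ∩ D⁻¹) with hO'
    have hO'1 : (1 : G) ∈ O' := by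
      rw [hO', mem_interior_iff_mem_nhds]
      exact inter_mem hD (hinv hD)
    have hO's : ∀ p ∈ O', p⁻¹ ∈ O' := by
      intro p hp
      refine mem_interior.2 ⟨O'⁻¹, ?_, isOpen_interior.inv, ?_⟩
      · intro x hx
        have hx' := interior_subset (Set.mem_inv.1 hx)
        refine ⟨?_, hx'.1⟩
        have h4 := Set.mem_inv.1 hx'.2
        rwa [inv_inv] at h4
      · rw [Set.mem_inv, inv_inv]
        exact hp
    have hO'D : O' ⊆ D := fun x hx => (interior_subset hx).1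
    have hqO : q '' O' ∈ 𝓝 (1 : W) := by
      have := hqo.image_mem_nhds (x := (1 : G)) (isOpen_interior.mem_nhds hO'1)
      rw [map_one] at this
      exact this
    obtain ⟨V, hV⟩ := NonarchimedeanGroup.is_nonarchimedean (q '' O') hqO
    refine ⟨O' ∩ q ⁻¹' V, V, ?_, ?_, ?_, ?_, V.isOpen, ?_, ?_, ?_, ?_⟩
    · exact isOpen_interior.inter (V.isOpen.preimage hq)
    · refine ⟨hO'1, ?_⟩
      simp only [Set.mem_preimage, map_one]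
      exact V.one_mem
    · exact fun x hx => (hO'D hx.1).1
    · rintro p ⟨hp, hpV⟩
      refine ⟨hO's p hp, ?_⟩
      simp only [Set.mem_preimage, map_inv] at hpV ⊢
      exact V.inv_mem hpV
    · ext w
      constructor
      · rintro ⟨p, ⟨-, hp⟩, rfl⟩
        exact hp
      · intro hw
        obtain ⟨p, hp, rfl⟩ := hV hw
        exact ⟨p, ⟨hp, hw⟩, rfl⟩
    · intro u₁ h1 u₂ h2 u₃ h3' p hp s hs s' hs' ⟨p₁, hp₁, p₂, hp₂, p₃, hp₃, hse⟩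
        ⟨r₁, hr₁, r₂, hr₂, r₃, hr₃, hse'⟩
      have hRm : ∀ x ∈ O' ∩ q ⁻¹' V, x ∈ R := fun x hx => (hO'D hx.1).2.1
      have hs1 : s ∈ t1 := by
        rw [hse]
        exact (hR' _ (hRm _ hp₁) _ (hRm _ hp₂) _ (hRm _ hp₃)).1
      have hs2 : s' ∈ t4 := by
        rw [hse']
        exact (hR' _ (hRm _ hr₁) _ (hRm _ hr₂) _ (hRm _ hr₃)).2
      have hp3 : p ∈ t3 := (hO'D hp.1).2.2.1
      have hz : ((s, p, s') : G × G × G) ∈ {z : G × G × G | ∀ y ∈ U ×ˢ (U ×ˢ U),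
        y.1 * z.1 * (z.2.1 * y.2.1 * z.2.1⁻¹) * z.2.2 * y.2.2 ∈ AC} :=
        h (Set.mk_mem_prod hs1 (h' (Set.mk_mem_prod hp3 hs2)))
      refine hACC ⟨hz (u₁, u₂, u₃) ⟨h1, h2, h3'⟩, ?_⟩
      have hn : p * u₂ * p⁻¹ ∈ q.ker := (MonoidHom.normal_ker q).conj_mem _ (hUN h2) p
      exact q.ker.mul_mem (q.ker.mul_mem (q.ker.mul_mem (q.ker.mul_mem (hUN h1) hs) hn) hs')
        (hUN h3')
    · intro p hp m hm
      have hz := (hO'D hp.1).2.2.2.1 m hm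
      refine hAC' ⟨hz, ?_⟩
      have hn := (MonoidHom.normal_ker q).conj_mem _ (hCN hm) p⁻¹
      rwa [inv_inv] at hn
    · intro p hp u hu
      have hz := (hO'D hp.1).2.2.2.2 u (hU0S hu)
      exact hAUU ⟨hz, (MonoidHom.normal_ker q).conj_mem _ hu.2 p⟩

end Pool.Agent.V8H75.TX
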